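import Mathlib
import Pool.Agent.H11.TB.MainW

/-!
MP_3e1759_gt: the twin bubble conjecture holds for every rotationally symmetric metric on
`RP^(n+1)` (`n ≥ 2`), and for every warped product `RP^(n+1) ×_k N` over it: for every `c > 0` there
are at least two distinct closed embedded hypersurfaces of constant mean curvature `c`.
-/

set_option autoImplicit false

namespace Pool.Agent.Results.MP_3e1759_gt.TwinProjective

open TwinBubble

theorem result (n : ℕ) (hn : 2 ≤ n) (φ ψ : E n → ℝ) (hφ : IsRotMetric φ) (hψ : IsRotWeight ψ)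
    (c : ℝ) (hc : 0 < c) :
    (∃ S₁ S₂ : Set (E n), IsClosedCMCW φ ψ c S₁ ∧ IsClosedCMCW φ ψ c S₂ ∧ S₁ ≠ S₂) ∧
    ((∃ r₁ r₂ : ℝ, 0 < r₁ ∧ r₁ < r₂ ∧ r₂ < 1 ∧ IsClosedCMCW φ ψ c (slice n r₁) ∧
        IsClosedCMCW φ ψ c (slice n r₂)) ∨
      {S : Set (E n) | IsClosedCMCW φ ψ c S}.Infinite) :=
  ⟨twinW hn hφ hψ c hc, mainW hn hφ hψ c hc⟩

end Pool.Agent.Results.MP_3e1759_gt.TwinProjective
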